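import Pool.Agent.U491.Conn.Main

/-!
# A connectoid whose end space is not the end space of a graph

Let `C` be a set of size `ℵ₂` and `S = C ∪ C × C × ℕ`.  The connectoid is generated by the finite
sets `{a, b, (a, b, n)}` and `{(a, b, n), (a, b, n + 1)}`.  Its end space does not embed into the
end space of any graph.
-/

set_option autoImplicit false

open Cardinal

universe u

namespace Pool.Agent.Results.MP_6a92a8_co.NotGraphical

/-- There is a connectoid whose end space is not homeomorphic to the end space of any graph; in
fact it is not even homeomorphic to a subspace of the end space of a graph. -/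
theorem result : ∃ (S : Type) (c : Pool.Agent.U491.Conn.Connectoid S),
    ∀ (V : Type u) (G : SimpleGraph V),
      IsEmpty (c.Ends ≃ₜ Pool.Agent.U491.Conn.GEnds G) ∧
      ∀ f : c.Ends → Pool.Agent.U491.Conn.GEnds G, ¬ Topology.IsEmbedding f := by
  have hC : Order.succ ℵ₁ ≤ #((Order.succ ℵ₁ : Cardinal.{0}).out) := by
    rw [Cardinal.mk_out]
  refine ⟨_, Pool.Agent.U491.Conn.ex ((Order.succ ℵ₁ : Cardinal.{0}).out), fun V G => ⟨?_, ?_⟩⟩
  · refine ⟨fun e => ?_⟩
    exact Pool.Agent.U491.Conn.no_embedding hC G e e.isEmbedding
  · exact fun f => Pool.Agent.U491.Conn.no_embedding hC G f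

end Pool.Agent.Results.MP_6a92a8_co.NotGraphical
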